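import Pool.Agent.T2H22.AD.Fin

/-! Project AD: the theorem for almost all integers, for all patterns. -/

set_option autoImplicit false

open Finset

namespace Pool.Agent.T2H22.AD

open Pool.Agent.T2H22.AA
open Pool.Agent.W70.HR
open Pool.Agent.H361R2.PP
open Pool.Agent.H379R2.PP (exists_rep)
open Pool.Agent.H862R2.PPSm5 (log_tendsto)

/-- the local condition from the conditions for the primes -/
theorem locG_of (S : Finset ℕ) (τ : ℕ → ℕ) (X u : ℕ)
    (h : ∀ p : ℕ, p.Prime → ∃ x : ℕ, x < p ∧ ∀ a ∈ S, ¬ p ∣ x + a ∧ ¬ x ≡ u + τ a [MOD p]) :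
    LocG S τ X u := by
  classical
  set P : Finset ℕ := (range (HH X + 1)).filter Nat.Prime with hP
  have hPp : ∀ p ∈ P, p.Prime := fun p hp => (mem_filter.1 hp).2
  have hW0 : 0 < Wm X := Wm_pos X
  have hWP : Wm X = ∏ p ∈ P, p := rfl
  choose f hf1 hf2 using fun p : {p : ℕ // p.Prime} => h p.1 p.2
  obtain ⟨r, hr⟩ := exists_rep P hPp (fun p => if h : p.Prime then f ⟨p, h⟩ else 0) (by
    intro p hp
    have hpp := hPp p hp
    rw [dif_pos hpp]
    exact hf1 ⟨p, hpp⟩)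
  set b2 := r % Wm X with hb2
  set b1 := (u + (Wm X - b2)) % Wm X with hb1
  have hb2lt : b2 < Wm X := Nat.mod_lt _ hW0
  have hsum : b1 + b2 ≡ u [MOD Wm X] := by
    have h1 : b1 ≡ u + (Wm X - b2) [MOD Wm X] := Nat.mod_modEq _ _
    have h2 : b1 + b2 ≡ u + (Wm X - b2) + b2 [MOD Wm X] := Nat.ModEq.add_right _ h1
    have h3 : u + (Wm X - b2) + b2 = u + Wm X := by omega
    rw [h3] at h2
    refine h2.trans ?_
    have : u + Wm X ≡ u + 0 [MOD Wm X] := Nat.ModEq.add_left u (by simp [Nat.ModEq])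
    simpa using this
  have hbp : ∀ p ∈ P, ∀ a ∈ S, ¬ p ∣ b2 + a ∧ ¬ b2 ≡ u + τ a [MOD p] := by
    intro p hp a ha
    have hpp := hPp p hp
    have hpW : p ∣ Wm X := by rw [hWP]; exact dvd_prod_of_mem _ hp
    have h1 := hr p hp
    rw [dif_pos hpp] at h1
    have h2 := hf2 ⟨p, hpp⟩ a ha
    have h3 : b2 ≡ f ⟨p, hpp⟩ [MOD p] := by
      have h4 : b2 ≡ r [MOD p] := (Nat.mod_modEq r (Wm X)).of_dvd hpW
      refine h4.trans ?_
      unfold Nat.ModEq
      rw [h1, Nat.mod_eq_of_lt (hf1 ⟨p, hpp⟩)]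
    have h4 : b2 + a ≡ f ⟨p, hpp⟩ + a [MOD p] := Nat.ModEq.add_right _ h3
    constructor
    · intro hd
      exact h2.1 ((Nat.ModEq.dvd_iff h4 dvd_rfl).1 hd)
    · intro hd
      exact h2.2 (h3.symm.trans hd)
  have hcop : ∀ x : ℕ, (∀ p ∈ P, ¬ p ∣ x) → x.Coprime (Wm X) := by
    intro x hx
    rw [hWP]
    apply Nat.Coprime.prod_right
    intro p hp
    rw [Nat.coprime_comm]
    exact ((hPp p hp).coprime_iff_not_dvd).2 (hx p hp)
  refine ⟨b1, b2, Nat.mod_lt _ hW0, hb2lt, hsum, ?_, ?_⟩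
  · intro a ha
    exact hcop _ fun p hp => (hbp p hp a ha).1
  · intro a ha
    apply hcop
    intro p hp hd
    have hpW : p ∣ Wm X := by rw [hWP]; exact dvd_prod_of_mem _ hp
    apply (hbp p hp a ha).2
    have h1 : b1 + τ a ≡ 0 [MOD p] := (Nat.modEq_zero_iff_dvd).2 hd
    have h2 : b1 + b2 ≡ u [MOD p] := hsum.of_dvd hpW
    have h3 : b1 + b2 + τ a ≡ u + τ a [MOD p] := Nat.ModEq.add_right _ h2
    have h4 : b1 + b2 + τ a = (b1 + τ a) + b2 := by ring
    rw [h4] at h3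
    have h5 : (b1 + τ a) + b2 ≡ 0 + b2 [MOD p] := Nat.ModEq.add_right _ h1
    rw [zero_add] at h5
    exact h5.symm.trans h3

theorem iter' (P : ℕ → Prop) [DecidablePred P] (η : ℝ) (hη : 0 ≤ η) (Y₁ : ℕ) (hY1 : 1 ≤ Y₁)
    (h : ∀ Y : ℕ, Y₁ ≤ Y → (((Ioc (5 * Y / 6) Y).filter P).card : ℝ) ≤ η * Y) :
    ∀ Y : ℕ, (((Icc 1 Y).filter P).card : ℝ) ≤ 6 * η * Y + Y₁ := by
  intro Y
  have := iter P η hη Y₁ hY1 (by intro Y hY; convert h Y hY) Y
  convert this

open Classical in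
/-- almost all integers, for a general pattern -/
theorem main_G (hSec : SecM) (r : ℕ) : ∃ k2 : ℕ, 1 ≤ k2 ∧ ∀ (S : Finset ℕ) (τ : ℕ → ℕ), S.card = k2 →
    (∀ a ∈ S, 1 ≤ a) → Set.InjOn τ S → (∀ a ∈ S, 1 ≤ τ a) → ∀ e : ℕ, ∃ D : ℕ,
    ∀ cnt : ℕ → ℕ, (∀ X n : ℕ, X ≤ n → n < 4 * X → e ≤ 2 * n → gdG S τ r X (2 * n - e) ≤ cnt n) →
    ∀ ε : ℝ, 0 < ε → ∃ X₀ : ℕ, ∀ X : ℕ, X₀ ≤ X →
    (((Icc 1 X).filter (fun n : ℕ => (∀ Y : ℕ, LocG S τ Y (2 * n - e)) ∧
      (cnt n : ℝ) < n / Real.log n ^ D)).card : ℝ) ≤ ε * X := by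
  obtain ⟨k2, hk2, hone⟩ := oneG hSec (eqI tR) (eqP tR supF (eqI tR)) r
  refine ⟨k2, hk2, fun S τ hSc hS1 hτ hτ1 e => ?_⟩
  obtain ⟨D, h⟩ := hone S τ hSc hS1 hτ hτ1
  refine ⟨D + 1, fun cnt hcnt ε hε => ?_⟩
  obtain ⟨X₁, h1⟩ := h (ε / 12) (by positivity)
  obtain ⟨X₂, h2⟩ := Filter.eventually_atTop.1 (log_tendsto.eventually_ge_atTop (4 : ℝ))
  set P : ℕ → Prop := fun n : ℕ => (∀ Y : ℕ, LocG S τ Y (2 * n - e)) ∧
    (cnt n : ℝ) < n / Real.log n ^ (D + 1) with hP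
  set Y₁ : ℕ := max (4 * X₁) (max (4 * X₂) (12 * e + 100)) with hY₁
  have hkey : ∀ Y : ℕ, Y₁ ≤ Y → (((Ioc (5 * Y / 6) Y).filter P).card : ℝ) ≤ ε / 12 * Y := by
    intro Y hY
    simp only [hY₁, max_le_iff] at hY
    obtain ⟨hY1, hY2, hY3⟩ := hY
    set X : ℕ := Y / 4 + 1 with hX
    have hXX1 : X₁ ≤ X := by omega
    have hXX2 : X₂ ≤ X := by omega
    have h3 := h1 X hXX1
    have hL4 := h2 X hXX2
    have hXY : (X : ℝ) ≤ Y := by
      have : X ≤ Y := by omega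
      exact_mod_cast this
    refine le_trans ?_ (mul_le_mul_of_nonneg_left hXY (by positivity : 0 ≤ ε / 12))
    refine le_trans ?_ h3
    apply Nat.cast_le.2
    apply card_le_card_of_injOn (fun n => 2 * n - e)
    · intro n hn
      rw [mem_coe, mem_filter, mem_Ioc] at hn
      obtain ⟨⟨hn1, hn2⟩, hn3⟩ := hn
      have hn4 : n < 4 * X := by omega
      have hn5 : X ≤ n := by omega
      rw [mem_coe, mem_filter, mem_Ico]
      simp only
      refine ⟨⟨by omega, by omega⟩, hn3.1 X, ?_⟩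
      have h4 := hcnt X n hn5 hn4 (by omega)
      have h5 : (gdG S τ r X (2 * n - e) : ℝ) ≤ cnt n := by exact_mod_cast h4
      refine lt_of_le_of_lt h5 (lt_of_lt_of_le hn3.2 ?_)
      have hX0 : (0 : ℝ) < X := by
        have : 0 < X := by omega
        exact_mod_cast this
      have hnr : (n : ℝ) ≤ 4 * X := by exact_mod_cast hn4.le
      have hXn : (X : ℝ) ≤ n := by exact_mod_cast hn5
      have hLn : Real.log X ≤ Real.log n := Real.log_le_log hX0 hXn
      have hL0 : 0 < Real.log X := by linarith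
      calc (n : ℝ) / Real.log n ^ (D + 1) ≤ (4 * X) / Real.log X ^ (D + 1) := by
            apply div_le_div₀ (by positivity) hnr (by positivity)
            exact pow_le_pow_left₀ hL0.le hLn _
        _ = (4 / Real.log X) * (X / Real.log X ^ D) := by
            rw [pow_succ]
            field_simp
        _ ≤ 1 * (X / Real.log X ^ D) := by
            apply mul_le_mul_of_nonneg_right _ (by positivity)
            rw [div_le_one hL0]
            exact hL4
        _ = _ := one_mul _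
    · intro n hn n' hn' he
      rw [mem_coe, mem_filter, mem_Ioc] at hn hn'
      simp only at he
      omega
  have hit := iter' P (ε / 12) (by positivity) Y₁ (by omega) hkey
  refine ⟨⌈2 * Y₁ / ε⌉₊, fun X hX => ?_⟩
  refine (hit X).trans ?_
  have h6 : 2 * (Y₁ : ℝ) / ε ≤ X := (Nat.le_ceil _).trans (by exact_mod_cast hX)
  rw [div_le_iff₀ hε] at h6
  linarith

/-- no local obstruction to `x + a`, `a ∈ A`, being all solutions for `n` -/
def PossA (A : Finset ℕ) (n : ℕ) : Prop :=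
  ∀ p : ℕ, p.Prime → ∃ x : ℤ, ∀ a ∈ A, ¬ (p : ℤ) ∣ n - (x + a) ∧ ¬ (p : ℤ) ∣ n + (x + a)

/-- no local obstruction to `x` being a solution for all `n + a`, `a ∈ A` -/
def PossD (A : Finset ℕ) (n : ℕ) : Prop :=
  ∀ p : ℕ, p.Prime → ∃ x : ℤ, ∀ a ∈ A, ¬ (p : ℤ) ∣ (n + a) - x ∧ ¬ (p : ℤ) ∣ (n + a) + x

open Classical in
/-- the number of `y ∈ [1, n]` such that at least `r` of the `y + a`, `a ∈ A`, are solutions for `n` -/
noncomputable def cntA (r : ℕ) (A : Finset ℕ) (n : ℕ) : ℕ :=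
  ((Icc 1 n).filter (fun y => r ≤ (A.filter (fun a => Sol n (y + a))).card)).card

open Classical in
/-- the number of `x ∈ [1, n]` which are solutions for at least `r` of the `n + a`, `a ∈ A` -/
noncomputable def cntD (r : ℕ) (A : Finset ℕ) (n : ℕ) : ℕ :=
  ((Icc 1 n).filter (fun x => r ≤ (A.filter (fun a => Sol (n + a) x)).card)).card

lemma natmod (p : ℕ) (hp : p.Prime) (z : ℤ) : ∃ x : ℕ, x < p ∧ (p : ℤ) ∣ z - x := by
  have hp0 : (0 : ℤ) < p := by exact_mod_cast hp.pos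
  refine ⟨(z % p).toNat, ?_, ?_⟩
  · have h1 := Int.emod_lt_of_pos z hp0
    have h2 := Int.emod_nonneg z hp0.ne'
    omega
  · have h2 := Int.emod_nonneg z hp0.ne'
    rw [Int.toNat_of_nonneg h2]
    exact Int.dvd_self_sub_emod

/-- removing the small integers -/
theorem fin_small (c : ℕ) {ε : ℝ} (hε : 0 < ε) {X : ℕ} (hX : (c : ℝ) ≤ ε / 2 * X) {P Q : ℕ → Prop}
    [DecidablePred P] [DecidablePred Q]
    (h : (((Icc 1 X).filter P).card : ℝ) ≤ ε / 2 * X) (hPQ : ∀ n, 1 ≤ n → c ≤ n → Q n → P n) :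
    (((Icc 1 X).filter Q).card : ℝ) ≤ ε * X := by
  classical
  have h1 : (Icc 1 X).filter Q ⊆ Icc 1 c ∪ (Icc 1 X).filter P := by
    intro n hn
    rw [mem_filter, mem_Icc] at hn
    rw [mem_union, mem_filter, mem_Icc, mem_Icc]
    by_cases h : n ≤ c
    · exact Or.inl ⟨hn.1.1, h⟩
    · exact Or.inr ⟨hn.1, hPQ n hn.1.1 (by omega) hn.2⟩
  have h2 := (card_le_card h1).trans (card_union_le _ _)
  rw [Nat.card_Icc, Nat.add_sub_cancel] at h2
  have h3 : (((Icc 1 X).filter Q).card : ℝ) ≤ c + (((Icc 1 X).filter P).card : ℝ) := by exact_mod_cast h2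
  linarith

open Classical in
theorem all_A (hSec : SecM) (r : ℕ) : ∃ K : ℕ, ∀ A : Finset ℕ, K ≤ A.card → ∃ D : ℕ, ∀ ε : ℝ, 0 < ε →
    ∃ X₀ : ℕ, ∀ X : ℕ, X₀ ≤ X →
    (((Icc 1 X).filter (fun n : ℕ => PossA A n ∧ (cntA r A n : ℝ) < n / Real.log n ^ D)).card : ℝ) ≤
      ε * X := by
  obtain ⟨k2, hk2, hmain⟩ := main_G hSec r
  refine ⟨k2, fun A0 hA0 => ?_⟩
  obtain ⟨A, hAA, hAc⟩ := exists_subset_card_eq hA0
  set c : ℕ := A.sup id with hcd
  have hc : ∀ a ∈ A, a ≤ c := fun a ha => Finset.le_sup (f := id) ha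
  set S : Finset ℕ := A.image (fun a => c + 1 - a) with hS
  set τ : ℕ → ℕ := fun s => c + 2 - s with hτ
  have hSm : ∀ s ∈ S, 1 ≤ s ∧ s ≤ c + 1 ∧ c + 1 - s ∈ A := by
    intro s hs
    rw [hS, mem_image] at hs
    obtain ⟨a, ha, rfl⟩ := hs
    have := hc a ha
    refine ⟨by omega, by omega, ?_⟩
    rwa [show c + 1 - (c + 1 - a) = a by omega]
  have hSc : S.card = k2 := by
    rw [hS, card_image_of_injOn, hAc]
    intro a ha a' ha' he
    have h1 := hc a ha
    have h2 := hc a' ha'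
    simp only at he
    omega
  obtain ⟨D, h⟩ := hmain S τ hSc (fun s hs => (hSm s hs).1) (by
      intro s hs s' hs' he
      have h1 := hSm s hs
      have h2 := hSm s' hs'
      simp only [hτ] at he
      omega) (fun s hs => by
      have h1 := hSm s hs
      simp only [hτ]
      omega) (c + 2)
  refine ⟨D, fun ε hε => ?_⟩
  obtain ⟨X₀, h0⟩ := h (cntA r A) (by
    intro X n hX1 hX2 he
    unfold gdG cntA
    apply card_le_card_of_injOn (fun x => x + 1 - n)
    · intro x hx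
      rw [mem_coe, mem_filter, mem_Ico] at hx
      obtain ⟨⟨hx1, hx2⟩, hxN, hxr⟩ := hx
      rw [mem_coe, mem_filter, mem_Icc]
      simp only
      refine ⟨⟨by omega, by omega⟩, ?_⟩
      refine hxr.trans ?_
      apply card_le_card_of_injOn (fun s => c + 1 - s)
      · intro s hs
        rw [mem_coe, mem_filter] at hs
        obtain ⟨hsS, hp, hq⟩ := hs
        obtain ⟨h1, h2, h3⟩ := hSm s hsS
        rw [mem_coe, mem_filter]
        simp only
        refine ⟨h3, ?_⟩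
        unfold Sol
        have e1 : n - (x + 1 - n + (c + 1 - s)) = 2 * n - (c + 2) - x + s := by omega
        have e2 : n + (x + 1 - n + (c + 1 - s)) = x + τ s := by
          simp only [hτ]
          omega
        rw [e1, e2]
        refine ⟨by omega, hp, hq⟩
      · intro s hs s' hs' he
        rw [mem_coe, mem_filter] at hs hs'
        have h1 := hSm s hs.1
        have h2 := hSm s' hs'.1
        simp only at he
        omega
    · intro x hx x' hx' he
      rw [mem_coe, mem_filter, mem_Ico] at hx hx'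
      simp only at he
      omega) (ε / 2) (by positivity)
  refine ⟨max X₀ ⌈2 * ((c + 2 : ℕ) : ℝ) / ε⌉₊, fun X hX => ?_⟩
  have h1 := h0 X ((le_max_left _ _).trans hX)
  refine fin_small (c + 2) hε (by
    have h2 : 2 * ((c + 2 : ℕ) : ℝ) / ε ≤ X := (Nat.le_ceil _).trans (by exact_mod_cast (le_max_right _ _).trans hX)
    rw [div_le_iff₀ hε] at h2
    linarith) h1 ?_
  intro n hn hcn hP
  have hcntle : cntA r A n ≤ cntA r A0 n := by
    unfold cntA
    apply card_le_card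
    intro y hy
    rw [mem_filter] at hy ⊢
    exact ⟨hy.1, hy.2.trans (card_le_card (filter_subset_filter _ hAA))⟩
  refine ⟨fun Y => locG_of S τ Y _ fun p hp => ?_, lt_of_le_of_lt (by exact_mod_cast hcntle) hP.2⟩
  obtain ⟨xp, hxp⟩ := hP.1 p hp
  obtain ⟨x, hx1, hx2⟩ := natmod p hp ((n : ℤ) - xp - c - 1)
  refine ⟨x, hx1, fun s hs => ?_⟩
  obtain ⟨k1, k2', k3⟩ := hSm s hs
  obtain ⟨e1, e2⟩ := hxp _ (hAA k3)
  have hcast : (((c + 1 - s : ℕ) : ℕ) : ℤ) = (c : ℤ) + 1 - s := by omega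
  rw [hcast] at e1 e2
  constructor
  · intro hd
    apply e1
    have hd' : (p : ℤ) ∣ (x : ℤ) + s := by exact_mod_cast hd
    have := dvd_add hx2 hd'
    have e : (n : ℤ) - xp - c - 1 - x + (x + s) = n - (xp + (c + 1 - s)) := by ring
    rwa [e] at this
  · intro hd
    apply e2
    have hd' : (p : ℤ) ∣ ((2 * n - (c + 2) + τ s : ℕ) : ℤ) - (x : ℤ) := (Nat.modEq_iff_dvd).1 hd
    have hcast2 : ((2 * n - (c + 2) + τ s : ℕ) : ℤ) = 2 * (n : ℤ) - s := by
      simp only [hτ]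
      omega
    rw [hcast2] at hd'
    have := dvd_sub hd' hx2
    have e : 2 * (n : ℤ) - s - x - ((n : ℤ) - xp - c - 1 - x) = n + (xp + (c + 1 - s)) := by ring
    rwa [e] at this

open Classical in
theorem all_D (hSec : SecM) (r : ℕ) : ∃ K : ℕ, ∀ A : Finset ℕ, K ≤ A.card → ∃ D : ℕ, ∀ ε : ℝ, 0 < ε →
    ∃ X₀ : ℕ, ∀ X : ℕ, X₀ ≤ X →
    (((Icc 1 X).filter (fun n : ℕ => PossD A n ∧ (cntD r A n : ℝ) < n / Real.log n ^ D)).card : ℝ) ≤
      ε * X := by
  obtain ⟨k2, hk2, hmain⟩ := main_G hSec r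
  refine ⟨k2, fun A0 hA0 => ?_⟩
  obtain ⟨A, hAA, hAc⟩ := exists_subset_card_eq hA0
  set S : Finset ℕ := A.image (fun a => a + 1) with hS
  have hSm : ∀ s ∈ S, 1 ≤ s ∧ s - 1 ∈ A := by
    intro s hs
    rw [hS, mem_image] at hs
    obtain ⟨a, ha, rfl⟩ := hs
    refine ⟨by omega, ?_⟩
    rwa [Nat.add_sub_cancel]
  have hSc : S.card = k2 := by
    rw [hS, card_image_of_injective _ (fun a b h => by simpa using h), hAc]
  obtain ⟨D, h⟩ := hmain S id hSc (fun s hs => (hSm s hs).1) (Set.injOn_id _) (fun s hs => (hSm s hs).1) 2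
  refine ⟨D, fun ε hε => ?_⟩
  obtain ⟨X₀, h0⟩ := h (cntD r A) (by
    intro X n hX1 hX2 he
    unfold gdG cntD
    apply card_le_card_of_injOn (fun x => x + 1 - n)
    · intro x hx
      rw [mem_coe, mem_filter, mem_Ico] at hx
      obtain ⟨⟨hx1, hx2⟩, hxN, hxr⟩ := hx
      rw [mem_coe, mem_filter, mem_Icc]
      simp only
      refine ⟨⟨by omega, by omega⟩, ?_⟩
      refine hxr.trans ?_
      apply card_le_card_of_injOn (fun s => s - 1)
      · intro s hs
        rw [mem_coe, mem_filter] at hs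
        obtain ⟨hsS, hp, hq⟩ := hs
        obtain ⟨h1, h3⟩ := hSm s hsS
        rw [mem_coe, mem_filter]
        simp only
        refine ⟨h3, ?_⟩
        unfold Sol
        have e1 : n + (s - 1) - (x + 1 - n) = 2 * n - 2 - x + s := by omega
        have e2 : n + (s - 1) + (x + 1 - n) = x + id s := by
          simp only [id]
          omega
        rw [e1, e2]
        refine ⟨by omega, hp, hq⟩
      · intro s hs s' hs' he
        rw [mem_coe, mem_filter] at hs hs'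
        have h1 := hSm s hs.1
        have h2 := hSm s' hs'.1
        simp only at he
        omega
    · intro x hx x' hx' he
      rw [mem_coe, mem_filter, mem_Ico] at hx hx'
      simp only at he
      omega) (ε / 2) (by positivity)
  refine ⟨max X₀ ⌈2 * ((2 : ℕ) : ℝ) / ε⌉₊, fun X hX => ?_⟩
  have h1 := h0 X ((le_max_left _ _).trans hX)
  refine fin_small 2 hε (by
    have h2 : 2 * ((2 : ℕ) : ℝ) / ε ≤ X := (Nat.le_ceil _).trans (by exact_mod_cast (le_max_right _ _).trans hX)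
    rw [div_le_iff₀ hε] at h2
    push_cast at h2 ⊢
    linarith) h1 ?_
  intro n hn hcn hP
  have hcntle : cntD r A n ≤ cntD r A0 n := by
    unfold cntD
    apply card_le_card
    intro y hy
    rw [mem_filter] at hy ⊢
    exact ⟨hy.1, hy.2.trans (card_le_card (filter_subset_filter _ hAA))⟩
  refine ⟨fun Y => locG_of S id Y _ fun p hp => ?_, lt_of_le_of_lt (by exact_mod_cast hcntle) hP.2⟩
  obtain ⟨xp, hxp⟩ := hP.1 p hp
  obtain ⟨x, hx1, hx2⟩ := natmod p hp ((n : ℤ) - xp - 1)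
  refine ⟨x, hx1, fun s hs => ?_⟩
  obtain ⟨k1, k3⟩ := hSm s hs
  obtain ⟨e1, e2⟩ := hxp _ (hAA k3)
  have hcast : (((s - 1 : ℕ) : ℕ) : ℤ) = (s : ℤ) - 1 := by omega
  rw [hcast] at e1 e2
  constructor
  · intro hd
    apply e1
    have hd' : (p : ℤ) ∣ (x : ℤ) + s := by exact_mod_cast hd
    have := dvd_add hx2 hd'
    have e : (n : ℤ) - xp - 1 - x + (x + s) = n + (s - 1) - xp := by ring
    rwa [e] at this
  · intro hd
    apply e2
    have hd' : (p : ℤ) ∣ ((2 * n - 2 + id s : ℕ) : ℤ) - (x : ℤ) := (Nat.modEq_iff_dvd).1 hd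
    have hcast2 : ((2 * n - 2 + id s : ℕ) : ℤ) = 2 * (n : ℤ) - 2 + s := by
      simp only [id]
      omega
    rw [hcast2] at hd'
    have := dvd_sub hd' hx2
    have e : 2 * (n : ℤ) - 2 + s - x - ((n : ℤ) - xp - 1 - x) = n + (s - 1) + xp := by ring
    rwa [e] at this

end Pool.Agent.T2H22.AD
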