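import Pool.Agent.T2H22.AD.AsmA
import Pool.Agent.T2H22.AA.Env4

/-! Project AD (patterns): the assembly of project AA for a general pattern. The set `S` of shifts on one side and an
injective map `τ` from `S` to the shifts on the other side. -/

set_option autoImplicit false

open Finset

namespace Pool.Agent.T2H22.AD

open Pool.Agent.T2H22.AA

open Pool.Agent.H361R2.PP
open Pool.Agent.W70.HR
open Pool.Agent.H862R2.PPSm5 (vv_lower HH_tendsto log_tendsto)
open Pool.Agent.H373R2.T7 (Vz pz mem_pz)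
open Pool.Agent.T2H22.BG (sh sh_inj)

open Classical in
/-- one interval -/
theorem oneG (hSec : SecM) (hI : EqI) (hP : EqP) (r : ℕ) : ∃ k2 : ℕ, 1 ≤ k2 ∧
    ∀ (S : Finset ℕ) (τ : ℕ → ℕ), S.card = k2 → (∀ a ∈ S, 1 ≤ a) → Set.InjOn τ S → (∀ a ∈ S, 1 ≤ τ a) →
    ∃ D : ℕ, ∀ η : ℝ, 0 < η → ∃ X₀ : ℕ, ∀ X : ℕ, X₀ ≤ X →
    (((Ico (6 * X) (9 * X)).filter (fun N => LocG S τ X N ∧
      (gdG S τ r X N : ℝ) < X / Real.log X ^ D)).card : ℝ) ≤ η * X := by
  obtain ⟨k, K, hk, hK, s₀, hs₀, hs₀1, hmt⟩ := mtenv r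
  obtain ⟨δE, cE, hδE, hδE16, hcE, XE, hmt⟩ := hmt 1 one_pos
  obtain ⟨k2, δG, hk2, hk21, hδG, hδG8, hlow⟩ := lowB k
  obtain ⟨cv, hcv, hcv1, hvv⟩ := vv_lower
  refine ⟨k2, by omega, ?_⟩
  intro S τ hSc hS1 hτ hτ1
  set c0 : ℕ := S.sup τ with hc0d
  have hc0 : ∀ a ∈ S, τ a ≤ c0 := fun a ha => Finset.le_sup (f := τ) ha
  set T : Finset ℕ := S.image τ with hT
  obtain ⟨c, hc, XL, hlow⟩ := hlow S hSc hS1
  set A' : ℕ := k2 + 2 * k + 3 with hA'
  set U : ℕ := A' + k + 4 with hU
  set D : ℕ := A' + k + 2 with hD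
  choose BI hBI using fun T' : Finset ℕ => hI T' K U
  choose BP hBP using fun T' : Finset ℕ => hP T' K U
  set B : ℕ := max (T.powerset.sup BI) (T.powerset.sup BP) + 1 with hB
  have hBI' : ∀ T' ⊆ T, BI T' ≤ B := fun T' h =>
    ((Finset.le_sup (mem_powerset.2 h)).trans (le_max_left _ _)).trans (Nat.le_succ _)
  have hBP' : ∀ T' ⊆ T, BP T' ≤ B := fun T' h =>
    ((Finset.le_sup (mem_powerset.2 h)).trans (le_max_right _ _)).trans (Nat.le_succ _)
  set E : ℕ := B + 1 with hE
  choose XI hXI using fun T' : Finset ℕ => hBI T' E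
  choose XP hXP using fun T' : Finset ℕ => hBP T' E
  refine ⟨D, ?_⟩
  intro η hη
  choose XS hXS using fun T' : Finset ℕ => hSec S T' δG c (η / 2) E hδG hδG8 hc (by positivity)
  -- large `X`
  obtain ⟨Xw, hw⟩ := Pool.Agent.H325R2.wtx.2 δE hδE (by linarith)
  obtain ⟨Xw', hw'⟩ := Pool.Agent.H325R2.wtx.2 δG hδG (by linarith)
  obtain ⟨Xz, hXz⟩ := log_rpow_pow (E + 1) (δE / 2) (by positivity)
  obtain ⟨Xz', hXz'⟩ := log_rpow_pow (E + 1) (δG / 2) (by positivity)
  obtain ⟨XH, hXH⟩ := Filter.eventually_atTop.1 (HH_tendsto.eventually_ge_atTop (2 * k + 2))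
  obtain ⟨Xpp, hXpp⟩ := ev_pp (A' + k + 2)
  obtain ⟨Xl, hXl⟩ := Filter.eventually_atTop.1 (log_tendsto.eventually_ge_atTop
    (max (max ((c0 : ℝ) + 2) (K + 2)) (max (max (4 / (η * c * cv ^ (k2 + 2 * k)))
      (4 / (cE * cv ^ k))) (Real.log 9 / s₀))))
  refine ⟨max (max (max XE XL) (max (T.powerset.sup XI) (T.powerset.sup XP)))
    (max (max (T.powerset.sup XS) (max Xw Xw')) (max (max Xz Xz') (max XH (max Xpp (max Xl 16))))), ?_⟩
  intro X hX
  simp only [max_le_iff] at hX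
  obtain ⟨⟨⟨hXE, hXL⟩, hXIs, hXPs⟩, ⟨hXSs, hXw, hXw'⟩, ⟨hXz1, hXz1'⟩, hXH1, hXpp1, hXl1, hX16⟩ := hX
  obtain ⟨hw1, hw2, hw3⟩ := hw X hXw
  obtain ⟨hw1', hw2', hw3'⟩ := hw' X hXw'
  have hz1 := hXz X hXz1
  have hz1' := hXz' X hXz1'
  have hHH := hXH X hXH1
  have hpp := hXpp X hXpp1
  have hlogs := hXl X hXl1
  simp only [max_le_iff] at hlogs
  obtain ⟨⟨hl1, hl2⟩, ⟨hl3, hl4⟩, hl5⟩ := hlogs
  have hXr : (16 : ℝ) ≤ X := by exact_mod_cast hX16
  have hX0 : (0 : ℝ) < X := by linarith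
  have hX1 : 1 ≤ X := by omega
  set L := Real.log X with hL
  have hL2 : 2 ≤ L := by
    have : (0 : ℝ) ≤ c0 := Nat.cast_nonneg _
    linarith
  have hL0 : 0 < L := by linarith
  have hL1 : 1 ≤ L := by linarith
  have hW0 : 0 < Wm X := Wm_pos X
  have hWr : (0 : ℝ) < Wm X := by exact_mod_cast hW0
  have hWL : (Wm X : ℝ) ≤ L := by
    calc (Wm X : ℝ) ≤ L ^ (7 / 20 : ℝ) := Pool.Agent.H325R2.wtx.1 X hX16
      _ ≤ L ^ (1 : ℝ) := Real.rpow_le_rpow_of_exponent_le hL1 (by norm_num)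
      _ = L := Real.rpow_one _
  -- the sifting limit
  set z : ℕ := ⌈L ^ B⌉₊ with hz
  have hLB1 : 1 ≤ L ^ B := one_le_pow₀ hL1
  have hzl : L ^ B ≤ z := Nat.le_ceil _
  have hzu : (z : ℝ) ≤ L ^ E := by
    have h1 : (z : ℝ) < L ^ B + 1 := Nat.ceil_lt_add_one (by positivity)
    have h2 : L ^ B + 1 ≤ L ^ E := by
      calc L ^ B + 1 ≤ L ^ B + L ^ B := by linarith
        _ = 2 * L ^ B := by ring
        _ ≤ L * L ^ B := mul_le_mul_of_nonneg_right hL2 (by positivity)
        _ = L ^ E := (pow_succ' L B).symm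
    linarith
  have hzL : L ≤ z := by
    have : L ≤ L ^ B := by
      calc L = L ^ 1 := (pow_one L).symm
        _ ≤ L ^ B := pow_le_pow_right₀ hL1 (by omega)
    linarith
  have hHL : (HH X : ℝ) ≤ L := by
    unfold HH
    have hll : 0 ≤ Real.log L := Real.log_nonneg hL1
    calc ((⌊Real.log (Real.log X) / 4⌋₊ : ℕ) : ℝ) ≤ Real.log (Real.log X) / 4 :=
          Nat.floor_le (by rw [← hL]; positivity)
      _ ≤ Real.log L := by rw [← hL]; linarith
      _ ≤ L := (Real.log_le_sub_one_of_pos (by linarith)).trans (by linarith)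
  have hHz : HH X ≤ z := by
    have : (HH X : ℝ) ≤ z := hHL.trans hzL
    exact_mod_cast this
  have hKz : K ≤ z := by
    have : (K : ℝ) ≤ z := by linarith
    exact_mod_cast this
  have hlt : ∀ δ : ℝ, L ^ (E + 1) ≤ (X : ℝ) ^ (δ / 2) → (X : ℝ) ^ (δ / 2) ≤ 2 ^ 2 ^ JJ δ X →
      z < 2 ^ 2 ^ JJ δ X := by
    intro δ h1 h2
    have h3 : (z : ℝ) < 2 ^ 2 ^ JJ δ X := by
      calc (z : ℝ) ≤ L ^ E := hzu
        _ < L ^ (E + 1) := pow_lt_pow_right₀ (by linarith) (Nat.lt_succ_self E)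
        _ ≤ _ := h1.trans h2
    exact_mod_cast h3
  have hzE : z < 2 ^ 2 ^ JJ δE X := hlt δE hz1 hw2
  have hzG : z < 2 ^ 2 ^ JJ δG X := hlt δG hz1' hw2'
  have h2HH : 2 ≤ HH X := by omega
  have hvE : cv / L ≤ VE z (JJ δE X) :=
    (hvv X δE hδE (by linarith) hX16 h2HH hw1 hw3).trans (VV_le_VE hHz)
  have hvG : cv / L ≤ VV δG X := hvv X δG hδG (by linarith) hX16 h2HH hw1' hw3'
  have hvG0 : 0 ≤ VV δG X := Pool.Agent.H862R2.PPSm5.vv_nonneg δG X
  have hvtk := VT_ge (k := k) (by omega : 2 * k ≤ HH X) hzG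
  have h2W : 2 ∣ Wm X := by
    unfold Wm
    exact Nat.prime_two.dvd_primorial_iff.2 h2HH
  -- one class
  have hclass : ∀ u < Wm X, ((((Ico (6 * X) (9 * X)).filter (fun N => LocG S τ X N ∧
      (gdG S τ r X N : ℝ) < X / L ^ D)).filter (fun N => N % Wm X = u)).card : ℝ) ≤
      η * (X / Wm X) := by
    intro u hu
    set E0 := ((Ico (6 * X) (9 * X)).filter (fun N => LocG S τ X N ∧
      (gdG S τ r X N : ℝ) < X / L ^ D)).filter (fun N => N % Wm X = u) with hE0
    by_contra hcon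
    push Not at hcon
    have hne : E0.Nonempty := by
      rw [← card_pos]
      have : (0 : ℝ) < E0.card := lt_of_le_of_lt (by positivity) hcon
      exact_mod_cast this
    have hloc : LocG S τ X u := by
      obtain ⟨N, hN⟩ := hne
      rw [hE0, mem_filter, mem_filter] at hN
      have h3 : N ≡ N % Wm X [MOD Wm X] := (Nat.mod_modEq N (Wm X)).symm
      rw [hN.2] at h3
      exact LocG_congr h3 hN.1.2.1
    obtain ⟨b1, b2, hb1, hb2, hbu, hb2S, hb1S⟩ := hloc
    obtain ⟨S', hS', hS'c, G, hGI, hGr, hGp, hGc⟩ := hlow X hXL b2 hb2 hb2S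
    set T' := S'.image τ with hT'
    have hT'T : T' ⊆ T := image_subset_image hS'
    have hT'c : T'.card = k := by
      rw [hT', card_image_of_injOn (hτ.mono hS'), hS'c]
    have hT'1 : ∀ t ∈ T', 1 ≤ t ∧ t ≤ c0 ∧ (b1 + t).Coprime (Wm X) := by
      intro t ht
      rw [hT', mem_image] at ht
      obtain ⟨a, ha, rfl⟩ := ht
      exact ⟨hτ1 a (hS' ha), hc0 a (hS' ha), hb1S a (hS' ha)⟩
    have hGI' : ∀ y ∈ G, X ≤ y ∧ y < 2 * X := by
      intro y hy
      have := hGI hy
      unfold SI at this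
      exact mem_Ico.1 (mem_filter.1 this).1
    have hGX : (G.card : ℝ) ≤ X := by
      have h1 : G ⊆ Ico X (2 * X) := fun y hy => mem_Ico.2 (hGI' y hy)
      have h2 := card_le_card h1
      rw [Nat.card_Ico] at h2
      have h3 : G.card ≤ X := by omega
      exact_mod_cast h3
    have hXS' := hXS T' X (sup_le_of _ XS hXSs T' (mem_powerset.2 hT'T)) z hHz hzu b1 b2 hb1 hb2 G hGI
      hGr hGc
    set ρ := rhoT X z b1 T' with hρ
    have hρ0 : ∀ x, 0 ≤ ρ x := rho_nonneg X z b1 T'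
    have hρ1 : ∀ x, ρ x ≤ 1 := rho_le_one X z b1 T'
    rw [hT'c] at hXS'
    set E' := E0.filter (fun N => ¬ (∑ y ∈ G, ρ (N - y) < 1 / 2 * ((G.card : ℝ) * VT X z k))) with hE'
    have hE0I : ∀ N ∈ E0, 6 * X ≤ N ∧ N < 9 * X := fun N hN =>
      mem_Ico.1 (mem_filter.1 (mem_filter.1 hN).1).1
    have hE'I : ∀ N ∈ E', 6 * X ≤ N ∧ N < 9 * X := fun N hN => hE0I N (mem_filter.1 hN).1
    have hE'c : η / 2 * (X / Wm X) ≤ (E'.card : ℝ) := by
      have h1 : E0.card = (E0.filter (fun N => ∑ y ∈ G, ρ (N - y) < 1 / 2 * ((G.card : ℝ) * VT X z k))).card +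
          E'.card := (card_filter_add_card_filter_not _).symm
      have h2 : ((E0.filter (fun N => ∑ y ∈ G, ρ (N - y) < 1 / 2 * ((G.card : ℝ) * VT X z k))).card : ℝ) ≤
          η / 2 * (X / Wm X) := by
        refine le_trans ?_ hXS'
        apply Nat.cast_le.2
        apply card_le_card
        intro N hN
        rw [mem_filter] at hN
        rw [mem_filter]
        refine ⟨mem_Ico.2 (hE0I N hN.1), ?_, hN.2⟩
        have h3 := (mem_filter.1 hN.1).2
        have h4 : N ≡ u [MOD Wm X] := by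
          unfold Nat.ModEq
          rw [h3, Nat.mod_eq_of_lt hu]
        exact h4.trans hbu.symm
      have h3 : (E0.card : ℝ) = ((E0.filter (fun N => ∑ y ∈ G, ρ (N - y) <
          1 / 2 * ((G.card : ℝ) * VT X z k))).card : ℝ) + (E'.card : ℝ) := by
        exact_mod_cast h1
      linarith
    have hE'X : (E'.card : ℝ) ≤ 3 * X := by
      have h1 : E' ⊆ Ico (6 * X) (9 * X) := fun N hN => mem_Ico.2 (hE'I N hN)
      have h2 := card_le_card h1
      rw [Nat.card_Ico] at h2
      have h3 : E'.card ≤ 3 * X := by omega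
      exact_mod_cast h3
    -- the mass
    set Ω := OmI X ρ E' G with hΩ
    have hΩl : (X : ℝ) ^ 2 / L ^ A' ≤ Ω := by
      apply num_Om (W := (Wm X : ℝ)) (η := η) (c := c) (cv := cv) (vG := VV δG X) (e := (E'.card : ℝ))
        (g := (G.card : ℝ)) (vt := VT X z k) hX0 hWr hWL hL1 hcv hvG hc hη hE'c
      · have := hGc
        rw [hSc] at this
        exact this
      · exact hvtk
      · rw [hΩ, OmI_eq X ρ E' G hE'I hGI']
        calc (E'.card : ℝ) * (1 / 2 * ((G.card : ℝ) * VT X z k)) =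
            ∑ N ∈ E', (1 / 2 * ((G.card : ℝ) * VT X z k)) := by rw [sum_const, nsmul_eq_mul]
          _ ≤ _ := by
              apply sum_le_sum
              intro N hN
              exact not_lt.1 (mem_filter.1 hN).2
      · have h1 : 0 < η * c * cv ^ (k2 + 2 * k) := by positivity
        rw [div_le_iff₀ h1] at hl3
        linarith
    have hΩ0 : 0 < Ω := lt_of_lt_of_le (by positivity) hΩl
    have hsq : √((E'.card : ℝ) * G.card) ≤ 2 * X :=
      num_sqrt hX0.le (Nat.cast_nonneg _) (Nat.cast_nonneg _) hE'X hGX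
    have hδsq : X / L ^ U * √((E'.card : ℝ) * G.card) ≤ (X : ℝ) ^ 2 / (2 * L ^ (A' + k + 2)) := by
      calc X / L ^ U * √((E'.card : ℝ) * G.card) ≤ X / L ^ U * (2 * X) :=
            mul_le_mul_of_nonneg_left hsq (by positivity)
        _ = (4 / L ^ 2) * ((X : ℝ) ^ 2 / (2 * L ^ (A' + k + 2))) := by
            rw [hU, show A' + k + 4 = (A' + k + 2) + 2 by omega, pow_add L (A' + k + 2) 2]
            field_simp
            ring
        _ ≤ 1 * ((X : ℝ) ^ 2 / (2 * L ^ (A' + k + 2))) := by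
            apply mul_le_mul_of_nonneg_right _ (by positivity)
            rw [div_le_one (by positivity)]
            nlinarith only [hL2]
        _ = _ := one_mul _
    have hΩl2 : (X : ℝ) ^ 2 / L ^ (A' + k + 2) ≤ Ω / L ^ (k + 2) := by
      rw [show A' + k + 2 = A' + (k + 2) by omega, pow_add, ← div_div]
      exact div_le_div_of_nonneg_right hΩl (by positivity)
    have hhalf : (X : ℝ) ^ 2 / (2 * L ^ (A' + k + 2)) = (X : ℝ) ^ 2 / L ^ (A' + k + 2) / 2 := by
      field_simp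
    have hpos2 : 0 < (X : ℝ) ^ 2 / L ^ (A' + k + 2) := by positivity
    have hEI : ∀ N ∈ E', N < 9 * X := fun N hN => (hE'I N hN).2
    have hGI2 : ∀ y ∈ G, y < 2 * X := fun y hy => (hGI' y hy).2
    -- the environment
    have hEnvI : Envw none K (k + 2) X z (wI X ρ E' G) (8 * X) Ω := by
      apply env_I K (k + 2) X z hX1 ρ hρ0 E' G hEI hGI2 (X / L ^ U)
      · intro γ c' hγ α
        exact hXI T' X (sup_le_of _ XI hXIs T' (mem_powerset.2 hT'T)) z
          ((pow_le_pow_right₀ hL1 (hBI' T' hT'T)).trans hzl) hzu b1 hb1 γ c' hγ α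
      · calc X / L ^ U * √((E'.card : ℝ) * G.card) ≤ (X : ℝ) ^ 2 / (2 * L ^ (A' + k + 2)) := hδsq
          _ ≤ (X : ℝ) ^ 2 / L ^ (A' + k + 2) := by rw [hhalf]; linarith
          _ ≤ _ := hΩl2
    have hEnvP : ∀ a ∈ T', Envw (some a) K (k + 2) X z (wP X a ρ E' G) (8 * X) (Ω / (L * Vz z)) := by
      intro a ha
      obtain ⟨ha1, ha2, ha3⟩ := hT'1 a ha
      have haX : a ≤ X := by
        have h1 : (a : ℝ) ≤ X := by
          have h2 : (a : ℝ) ≤ c0 := by exact_mod_cast ha2
          have h3 : L ≤ X := (Real.log_le_sub_one_of_pos hX0).trans (by linarith)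
          linarith
        exact_mod_cast h1
      apply env_P K (k + 2) X z a hX16 haX hKz ρ hρ0 hρ1 E' G hEI hGI2 (X / L ^ U)
      · intro γ c' hγ hc' α
        exact hXP T' X (sup_le_of _ XP hXPs T' (mem_powerset.2 hT'T)) z
          ((pow_le_pow_right₀ hL1 (hBP' T' hT'T)).trans hzl) hzu b1 hb1 a ha ha3 γ c' hγ hc' α
      · have h1 : (G.card : ℝ) * (2 * √((9 * X : ℕ) : ℝ) * Real.log ((9 * X : ℕ) : ℝ)) * (Y16 X : ℝ) ^ 2 ≤
            (X : ℝ) ^ 2 / (2 * L ^ (A' + k + 2)) := by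
          refine le_trans ?_ hpp
          have : 0 ≤ Real.log ((9 * X : ℕ) : ℝ) := Real.log_natCast_nonneg _
          gcongr
        have h2 : Ω / L ^ (k + 2) ≤ (Ω / Vz z) / L ^ (k + 2) := by
          apply div_le_div_of_nonneg_right _ (by positivity)
          rw [le_div_iff₀ (Vz_pos z)]
          exact mul_le_of_le_one_right hΩ0.le (Vz_le_one z)
        rw [hhalf] at h1 hδsq
        linarith
    -- the theorem of Maynard and Tao
    have hfin := hmt X hXE z hHz hzE T' hT'c (fun a ha => ⟨(hT'1 a ha).1, by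
        have h2 : (a : ℝ) ≤ c0 := by exact_mod_cast (hT'1 a ha).2.1
        rw [one_mul, ← hL]
        linarith⟩) (wI X ρ E' G) (fun a => wP X a ρ E' G) (8 * X) Ω hEnvI hEnvP
      (by
        intro a ha n hn
        unfold wP at hn
        have h1 : n ∈ Ico (4 * X) (8 * X) ∧ (n + a).Prime := by
          by_contra h
          rw [if_neg h] at hn
          exact hn rfl
        have h2 := mem_Ico.1 h1.1
        exact ⟨by omega, h1.2⟩)
      (by
        intro a ha n
        have ha2 := (hT'1 a ha).2.1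
        unfold wP wI
        by_cases h1 : n ∈ Ico (4 * X) (8 * X)
        · rw [if_pos h1]
          have h3 : 0 ≤ ρ n * mm E' G n := mul_nonneg (hρ0 n) (mm_nonneg _ _ _)
          by_cases h2 : (n + a).Prime
          · rw [if_pos ⟨h1, h2⟩, mul_comm (1 + s₀)]
            apply mul_le_mul_of_nonneg_left _ h3
            rw [← hL, div_le_iff₀ hL0]
            refine ArithmeticFunction.vonMangoldt_le_log.trans ?_
            have h4 : ((n + a : ℕ) : ℝ) ≤ 9 * X := by
              have h5 := (mem_Ico.1 h1).2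
              have h6 : (n : ℝ) ≤ 8 * X := by exact_mod_cast h5.le
              have h7 : (a : ℝ) ≤ X := by
                have h8 : (a : ℝ) ≤ c0 := by exact_mod_cast ha2
                have h9 : L ≤ X := (Real.log_le_sub_one_of_pos hX0).trans (by linarith)
                linarith
              push_cast
              linarith
            have h5 : (0 : ℝ) < ((n + a : ℕ) : ℝ) := by exact_mod_cast h2.pos
            calc Real.log ((n + a : ℕ) : ℝ) ≤ Real.log (9 * X) := Real.log_le_log h5 h4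
              _ = Real.log 9 + L := Real.log_mul (by norm_num) hX0.ne'
              _ ≤ s₀ * L + L := by
                  rw [div_le_iff₀ hs₀] at hl5
                  linarith
              _ = (1 + s₀) * L := by ring
          · rw [if_neg (fun h => h2 h.2)]
            positivity
        · rw [if_neg (fun h => h1 h.1), if_neg h1]
          simp)
      (by
        intro n hn
        unfold wI at hn
        have h1 : n ∈ Ico (4 * X) (8 * X) := by
          by_contra h
          rw [if_neg h] at hn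
          exact hn rfl
        have h2 := mem_Ico.1 h1
        omega)
    have hcnt := count_leG S S' hS' τ hτ r X ρ hρ0 hρ1 E' G hGp
    have hup : ∑ N ∈ E', (gdG S τ r X N : ℝ) ≤ 3 * X * (X / L ^ D) := by
      calc ∑ N ∈ E', (gdG S τ r X N : ℝ) ≤ ∑ N ∈ E', (X / L ^ D : ℝ) := by
            apply sum_le_sum
            intro N hN
            exact ((mem_filter.1 (mem_filter.1 (mem_filter.1 hN).1).1).2.2).le
        _ = E'.card * (X / L ^ D) := by rw [sum_const, nsmul_eq_mul]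
        _ ≤ _ := mul_le_mul_of_nonneg_right hE'X (by positivity)
    have hall : cE * (Ω * VE z (JJ δE X) ^ k) ≤ 3 * X * (X / L ^ D) := by
      refine hfin.trans (le_trans (le_of_eq ?_) (hcnt.trans hup))
      rfl
    -- contradiction
    have hlowf : cE * ((X : ℝ) ^ 2 / L ^ A' * (cv / L) ^ k) ≤ 3 * X * (X / L ^ D) := by
      refine le_trans ?_ hall
      apply mul_le_mul_of_nonneg_left _ hcE.le
      apply mul_le_mul hΩl _ (by positivity) hΩ0.le
      exact pow_le_pow_left₀ (by positivity) hvE k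
    have e1 : cE * ((X : ℝ) ^ 2 / L ^ A' * (cv / L) ^ k) = (cE * cv ^ k * L) * (L * (X ^ 2 / L ^ D)) :=
      num_e1 cE X L cv hL0 A' k
    have e2 : 3 * X * (X / L ^ D) = 3 * ((X : ℝ) ^ 2 / L ^ D) := by ring
    rw [e1, e2] at hlowf
    have h1 : 0 < cE * cv ^ k := by positivity
    rw [div_le_iff₀ h1] at hl4
    have h2 : 0 < (X : ℝ) ^ 2 / L ^ D := by positivity
    have h3 : 4 ≤ cE * cv ^ k * L := by linarith
    have h4 : 4 * (1 * ((X : ℝ) ^ 2 / L ^ D)) ≤ (cE * cv ^ k * L) * (L * (X ^ 2 / L ^ D)) := by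
      apply mul_le_mul h3 _ (by positivity) (by positivity)
      exact mul_le_mul_of_nonneg_right hL1 h2.le
    linarith
  -- all the classes
  set Bad := (Ico (6 * X) (9 * X)).filter (fun N => LocG S τ X N ∧
      (gdG S τ r X N : ℝ) < X / L ^ D) with hBad
  have hcard : Bad.card = ∑ u ∈ range (Wm X), (Bad.filter (fun N => N % Wm X = u)).card :=
    card_eq_sum_card_fiberwise (fun N _ => mem_coe.2 (mem_range.2 (Nat.mod_lt _ hW0)))
  rw [hcard]
  push_cast
  calc ∑ u ∈ range (Wm X), ((Bad.filter (fun N => N % Wm X = u)).card : ℝ) ≤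
      ∑ u ∈ range (Wm X), η * (X / Wm X) := sum_le_sum fun u hu => hclass u (mem_range.1 hu)
    _ = η * X := by
        rw [sum_const, card_range, nsmul_eq_mul]
        field_simp

end Pool.Agent.T2H22.AD
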