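import Pool.Agent.T2H22.AD.FinA
import Pool.Agent.T2H22.AD.Asm

/-! Project AD: common solutions of the systems for neighbouring integers. -/

set_option autoImplicit false

open Finset

namespace Pool.Agent.T2H22.AD

open Pool.Agent.T2H22.AA
open Pool.Agent.T2H22.BG (sh sh_inj)
open Pool.Agent.W70.HR
open Pool.Agent.H361R2.PP
open Pool.Agent.H379R2.PP (exists_rep)
open Pool.Agent.H862R2.PPSm5 (log_tendsto)

open Classical in
theorem main_D (hSec : SecM) (r : ℕ) (hr : 1 ≤ r) : ∃ C D : ℕ, ∀ ε : ℝ, 0 < ε → ∃ X₀ : ℕ, ∀ X : ℕ, X₀ ≤ X →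
    (((Icc 1 X).filter (fun n : ℕ => (cm r C n : ℝ) < n / Real.log n ^ D)).card : ℝ) ≤ ε * X := by
  obtain ⟨k2, hk2, hone⟩ := oneG hSec (eqI tR) (eqP tR supF (eqI tR)) r
  -- the tuple
  set M0 : ℕ := (2 * k2 + 2).factorial with hM0
  have hM00 : 0 < M0 := Nat.factorial_pos _
  set S : Finset ℕ := (range k2).image (sh M0) with hS
  have hSc : S.card = k2 := by
    rw [hS, card_image_of_injective _ (sh_inj hM00), card_range]
  have hS1 : ∀ a ∈ S, 1 ≤ a := by
    intro a ha
    rw [hS, mem_image] at ha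
    obtain ⟨i, _, rfl⟩ := ha
    unfold sh
    exact Nat.mul_pos hM00 (by omega)
  have hSdiv : ∀ a ∈ S, ∀ p : ℕ, p.Prime → p ≤ 2 * k2 + 2 → p ∣ a := by
    intro a ha p hp hpk
    rw [hS, mem_image] at ha
    obtain ⟨i, _, rfl⟩ := ha
    unfold sh
    exact dvd_mul_of_dvd_left ((hp.dvd_factorial).2 hpk) _
  set c0 : ℕ := S.sup id with hc0d
  have hc0 : ∀ a ∈ S, a ≤ c0 := fun a ha => Finset.le_sup (f := id) ha
  obtain ⟨D, h⟩ := hone S id hSc hS1 (Set.injOn_id _) hS1
  refine ⟨c0, D + 1, fun ε hε => ?_⟩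
  obtain ⟨X₁, h1⟩ := h (ε / 12) (by positivity)
  obtain ⟨X₂, h2⟩ := Filter.eventually_atTop.1 (log_tendsto.eventually_ge_atTop (4 : ℝ))
  set P : ℕ → Prop := fun n : ℕ => (cm r c0 n : ℝ) < n / Real.log n ^ (D + 1) with hP
  set Y₁ : ℕ := max (4 * X₁) (max (4 * X₂) (6 * c0 + 100)) with hY₁
  have hkey : ∀ Y : ℕ, Y₁ ≤ Y → (((Ioc (5 * Y / 6) Y).filter P).card : ℝ) ≤ ε / 12 * Y := by
    intro Y hY
    simp only [hY₁, max_le_iff] at hY
    obtain ⟨hY1, hY2, hY3⟩ := hY
    set X : ℕ := Y / 4 + 1 with hX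
    have hXX1 : X₁ ≤ X := by omega
    have hXX2 : X₂ ≤ X := by omega
    have h3 := h1 X hXX1
    have hL4 := h2 X hXX2
    have hXY : (X : ℝ) ≤ Y := by
      have : X ≤ Y := by omega
      exact_mod_cast this
    refine le_trans ?_ (mul_le_mul_of_nonneg_left hXY (by positivity : 0 ≤ ε / 12))
    refine le_trans ?_ h3
    apply Nat.cast_le.2
    apply card_le_card_of_injOn (fun n => 2 * n)
    · intro n hn
      rw [mem_coe, mem_filter, mem_Ioc] at hn
      obtain ⟨⟨hn1, hn2⟩, hn3⟩ := hn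
      have hn4 : n < 4 * X := by omega
      have hn5 : X ≤ n := by omega
      rw [mem_coe, mem_filter, mem_Ico]
      simp only
      refine ⟨⟨by omega, by omega⟩, ?_, ?_⟩
      · exact locD S k2 hSc.le hSdiv X (2 * n) (even_two_mul n)
      · have h4 := gd_leD S c0 r X n hc0 hS1 hn4 hr
        have h5 : (gdG S id r X (2 * n) : ℝ) ≤ cm r c0 n := by exact_mod_cast h4
        refine lt_of_le_of_lt h5 (lt_of_lt_of_le hn3 ?_)
        have hX0 : (0 : ℝ) < X := by
          have : 0 < X := by omega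
          exact_mod_cast this
        have hnr : (n : ℝ) ≤ 4 * X := by exact_mod_cast hn4.le
        have hXn : (X : ℝ) ≤ n := by exact_mod_cast hn5
        have hLn : Real.log X ≤ Real.log n := Real.log_le_log hX0 hXn
        have hL0 : 0 < Real.log X := by linarith
        calc (n : ℝ) / Real.log n ^ (D + 1) ≤ (4 * X) / Real.log X ^ (D + 1) := by
              apply div_le_div₀ (by positivity) hnr (by positivity)
              exact pow_le_pow_left₀ hL0.le hLn _
          _ = (4 / Real.log X) * (X / Real.log X ^ D) := by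
              rw [pow_succ]
              field_simp
          _ ≤ 1 * (X / Real.log X ^ D) := by
              apply mul_le_mul_of_nonneg_right _ (by positivity)
              rw [div_le_one hL0]
              exact hL4
          _ = _ := one_mul _
    · intro n hn n' hn' he
      rw [mem_coe, mem_filter, mem_Ioc] at hn hn'
      simp only at he
      omega
  have hit := iter P (ε / 12) (by positivity) Y₁ (by omega) hkey
  refine ⟨⌈2 * Y₁ / ε⌉₊, fun X hX => ?_⟩
  refine (hit X).trans ?_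
  have h6 : 2 * (Y₁ : ℝ) / ε ≤ X := (Nat.le_ceil _).trans (by exact_mod_cast hX)
  rw [div_le_iff₀ hε] at h6
  linarith

end Pool.Agent.T2H22.AD
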