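import Pool.Agent.T2H22.AD.AsmA
import Pool.Agent.T2H22.AA.FinA
import Pool.Agent.T2H22.AA.SecM

/-! Auxiliary lemmas for `AD/Fin.lean` (a separate file, so that the long theorems are compiled in parallel). -/

set_option autoImplicit false

open Finset

namespace Pool.Agent.T2H22.AD

open Pool.Agent.T2H22.AA
open Pool.Agent.T2H22.BG (sh sh_inj)
open Pool.Agent.W70.HR
open Pool.Agent.H361R2.PP
open Pool.Agent.H379R2.PP (exists_rep)
open Pool.Agent.H862R2.PPSm5 (log_tendsto)

/-- the class modulo one prime, for parallel patterns -/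
theorem class_pD (S : Finset ℕ) (k2 : ℕ) (hS : S.card ≤ k2) (hdiv : ∀ a ∈ S, ∀ p : ℕ, p.Prime →
    p ≤ 2 * k2 + 2 → p ∣ a) (m : ℕ) (hm : Even m) (p : ℕ) (hp : p.Prime) :
    ∃ x : ℕ, x < p ∧ ∀ a ∈ S, ¬ p ∣ x + a ∧ ¬ x ≡ m + a [MOD p] := by
  classical
  by_cases hsmall : p ≤ 2 * k2 + 2
  · -- small primes
    have key : ∀ x : ℕ, x < p → x ≠ 0 → x ≠ m % p → ∀ a ∈ S, ¬ p ∣ x + a ∧ ¬ x ≡ m + a [MOD p] := by
      intro x hx hx0 hxm a ha
      have hpa := hdiv a ha p hp hsmall
      constructor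
      · intro hd
        have := (Nat.dvd_add_left hpa).1 hd
        exact hx0 (Nat.eq_zero_of_dvd_of_lt this hx)
      · intro hd
        have h1 : m + a ≡ m + 0 [MOD p] := Nat.ModEq.add_left m ((Nat.modEq_zero_iff_dvd).2 hpa)
        have h2 : x ≡ m [MOD p] := by
          have h3 := hd.trans h1
          simpa using h3
        unfold Nat.ModEq at h2
        rw [Nat.mod_eq_of_lt hx] at h2
        exact hxm h2
    rcases hp.eq_two_or_odd with h2 | hodd
    · subst h2
      refine ⟨1, by norm_num, key 1 (by norm_num) (by norm_num) ?_⟩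
      have := Nat.even_iff.1 hm
      omega
    · have h3 : 3 ≤ p := by
        have := hp.two_le
        omega
      by_cases h1 : m % p = 1
      · exact ⟨2, by omega, key 2 (by omega) (by norm_num) (by omega)⟩
      · exact ⟨1, by omega, key 1 (by omega) (by norm_num) (by omega)⟩
  · -- large primes
    push Not at hsmall
    have hp0 := hp.pos
    set B : Finset ℕ := S.image (fun a => (p - a % p) % p) ∪ S.image (fun a => (m + a) % p)
      with hB
    have hBc : B.card < p := by
      have h1 : B.card ≤ S.card + S.card :=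
        (card_union_le _ _).trans (add_le_add card_image_le card_image_le)
      omega
    obtain ⟨x, hx, hxB⟩ : ∃ x ∈ range p, x ∉ B := by
      by_contra hcon
      push Not at hcon
      have : range p ⊆ B := fun x hx => hcon x hx
      have := card_le_card this
      rw [card_range] at this
      omega
    rw [mem_range] at hx
    refine ⟨x, hx, fun a ha => ?_⟩
    constructor
    · intro hd
      apply hxB
      rw [hB, mem_union, mem_image]
      left
      refine ⟨a, ha, ?_⟩
      have h1 : x + a ≡ 0 [MOD p] := (Nat.modEq_zero_iff_dvd).2 hd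
      have h2 : a + (p - a % p) ≡ 0 [MOD p] := by
        rw [Nat.modEq_zero_iff_dvd]
        have h2 : a % p < p := Nat.mod_lt _ hp0
        have h3 : a + (p - a % p) = p + p * (a / p) := by
          have := Nat.mod_add_div a p
          omega
        rw [h3]
        exact dvd_add dvd_rfl (dvd_mul_right _ _)
      have h3 : x + a + (p - a % p) ≡ 0 + (p - a % p) [MOD p] := Nat.ModEq.add_right _ h1
      have h4 : x + (a + (p - a % p)) ≡ x + 0 [MOD p] := Nat.ModEq.add_left x h2
      rw [← add_assoc, add_zero] at h4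
      rw [zero_add] at h3
      have h5 := h3.symm.trans h4
      unfold Nat.ModEq at h5
      rw [Nat.mod_eq_of_lt hx] at h5
      exact h5
    · intro hd
      apply hxB
      rw [hB, mem_union, mem_image, mem_image]
      right
      refine ⟨a, ha, ?_⟩
      unfold Nat.ModEq at hd
      rw [Nat.mod_eq_of_lt hx] at hd
      exact hd.symm

/-- the local condition for parallel patterns -/
theorem locD (S : Finset ℕ) (k2 : ℕ) (hS : S.card ≤ k2) (hdiv : ∀ a ∈ S, ∀ p : ℕ, p.Prime →
    p ≤ 2 * k2 + 2 → p ∣ a) (X u : ℕ) (hm : Even u) : LocG S id X u := by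
  classical
  set P : Finset ℕ := (range (HH X + 1)).filter Nat.Prime with hP
  have hPp : ∀ p ∈ P, p.Prime := fun p hp => (mem_filter.1 hp).2
  have hW0 : 0 < Wm X := Wm_pos X
  have hWP : Wm X = ∏ p ∈ P, p := rfl
  choose f hf1 hf2 using fun p : {p : ℕ // p.Prime} => class_pD S k2 hS hdiv u hm p.1 p.2
  obtain ⟨r, hr⟩ := exists_rep P hPp (fun p => if h : p.Prime then f ⟨p, h⟩ else 0) (by
    intro p hp
    have hpp := hPp p hp
    rw [dif_pos hpp]
    exact hf1 ⟨p, hpp⟩)
  set b2 := r % Wm X with hb2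
  set b1 := (u + (Wm X - b2)) % Wm X with hb1
  have hb2lt : b2 < Wm X := Nat.mod_lt _ hW0
  have hsum : b1 + b2 ≡ u [MOD Wm X] := by
    have h1 : b1 ≡ u + (Wm X - b2) [MOD Wm X] := Nat.mod_modEq _ _
    have h2 : b1 + b2 ≡ u + (Wm X - b2) + b2 [MOD Wm X] := Nat.ModEq.add_right _ h1
    have h3 : u + (Wm X - b2) + b2 = u + Wm X := by omega
    rw [h3] at h2
    refine h2.trans ?_
    have : u + Wm X ≡ u + 0 [MOD Wm X] := Nat.ModEq.add_left u (by simp [Nat.ModEq])
    simpa using this
  have hbp : ∀ p ∈ P, ∀ a ∈ S, ¬ p ∣ b2 + a ∧ ¬ b2 ≡ u + a [MOD p] := by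
    intro p hp a ha
    have hpp := hPp p hp
    have hpW : p ∣ Wm X := by rw [hWP]; exact dvd_prod_of_mem _ hp
    have h1 := hr p hp
    rw [dif_pos hpp] at h1
    have h2 := hf2 ⟨p, hpp⟩ a ha
    have h3 : b2 ≡ f ⟨p, hpp⟩ [MOD p] := by
      have h4 : b2 ≡ r [MOD p] := (Nat.mod_modEq r (Wm X)).of_dvd hpW
      refine h4.trans ?_
      unfold Nat.ModEq
      rw [h1, Nat.mod_eq_of_lt (hf1 ⟨p, hpp⟩)]
    have h4 : b2 + a ≡ f ⟨p, hpp⟩ + a [MOD p] := Nat.ModEq.add_right _ h3
    constructor
    · intro hd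
      exact h2.1 ((Nat.ModEq.dvd_iff h4 dvd_rfl).1 hd)
    · intro hd
      exact h2.2 (h3.symm.trans hd)
  have hcop : ∀ x : ℕ, (∀ p ∈ P, ¬ p ∣ x) → x.Coprime (Wm X) := by
    intro x hx
    rw [hWP]
    apply Nat.Coprime.prod_right
    intro p hp
    rw [Nat.coprime_comm]
    exact ((hPp p hp).coprime_iff_not_dvd).2 (hx p hp)
  refine ⟨b1, b2, Nat.mod_lt _ hW0, hb2lt, hsum, ?_, ?_⟩
  · intro a ha
    exact hcop _ fun p hp => (hbp p hp a ha).1
  · intro a ha
    apply hcop
    intro p hp hd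
    have hpW : p ∣ Wm X := by rw [hWP]; exact dvd_prod_of_mem _ hp
    apply (hbp p hp a ha).2
    have h1 : b1 + a ≡ 0 [MOD p] := (Nat.modEq_zero_iff_dvd).2 hd
    have h2 : b1 + b2 ≡ u [MOD p] := hsum.of_dvd hpW
    have h3 : b1 + b2 + a ≡ u + a [MOD p] := Nat.ModEq.add_right _ h2
    have h4 : b1 + b2 + a = (b1 + a) + b2 := by ring
    rw [h4] at h3
    have h5 : (b1 + a) + b2 ≡ 0 + b2 [MOD p] := Nat.ModEq.add_right _ h1
    rw [zero_add] at h5
    exact h5.symm.trans h3

/-- `n - x` and `n + x` are primes -/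
def Sol (n x : ℕ) : Prop := x < n ∧ (n - x).Prime ∧ (n + x).Prime

open Classical in
/-- the number of `x ∈ [1, n]` which solve the problem for at least `r` of the integers `n + 1, ..., n + C` -/
noncomputable def cm (r C n : ℕ) : ℕ :=
  ((Icc 1 n).filter (fun x => r ≤ ((Icc (n + 1) (n + C)).filter (fun m => Sol m x)).card)).card

theorem gd_leD (S : Finset ℕ) (C r X n : ℕ) (hC : ∀ a ∈ S, a ≤ C) (hS1 : ∀ a ∈ S, 1 ≤ a)
    (hn1 : n < 4 * X) (hX : 1 ≤ r) :
    gdG S id r X (2 * n) ≤ cm r C n := by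
  classical
  unfold gdG cm
  apply card_le_card_of_injOn (fun x => x - n)
  · intro x hx
    rw [mem_coe, mem_filter, mem_Ico] at hx
    obtain ⟨⟨hx1, hx2⟩, hxN, hxr⟩ := hx
    rw [mem_coe, mem_filter, mem_Icc]
    simp only
    refine ⟨⟨by omega, by omega⟩, ?_⟩
    refine hxr.trans ?_
    apply card_le_card_of_injOn (fun a => n + a)
    · intro a ha
      rw [mem_coe, mem_filter] at ha
      obtain ⟨haS, hp, hq⟩ := ha
      have h1 := hC a haS
      have h2 := hS1 a haS
      rw [mem_coe, mem_filter, mem_Icc]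
      simp only
      refine ⟨⟨by omega, by omega⟩, ?_⟩
      unfold Sol
      have e1 : n + a - (x - n) = 2 * n - x + a := by omega
      have e2 : n + a + (x - n) = x + a := by omega
      rw [e1, e2]
      exact ⟨by omega, hp, hq⟩
    · intro a ha a' ha' he
      simp only at he
      omega
  · intro x hx x' hx' he
    rw [mem_coe, mem_filter, mem_Ico] at hx hx'
    simp only at he
    omega

end Pool.Agent.T2H22.AD
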